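import Pool.Agent.Q278.WSel
import Pool.Agent.Q278.Amalg

/-!
# MP_a38e10: chromatic gap three in `K_5`-free graphs of every cochromatic number `k ≥ 3`
-/

namespace Pool.Agent.Results.MP_a38e10_co.GapThree

open Finset Q278.WG Q278.Amalg

/-- `G` has a partition into (at most) `k` homogeneous sets, each an independent set or a clique. -/
def CochromaticColorable {V : Type} (G : SimpleGraph V) (k : ℕ) : Prop :=
  ∃ c : V → Fin k, ∀ i : Fin k, G.IsIndepSet {v | c v = i} ∨ G.IsClique {v | c v = i}

/-- The cochromatic number: the least number of parts in a partition of the vertex set into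
homogeneous sets. -/
noncomputable def cochromaticNumber {V : Type} (G : SimpleGraph V) : ℕ :=
  sInf {k : ℕ | CochromaticColorable G k}

/-- blocks: a level and a `K_4`-free set of vertices of `W` -/
abbrev Blk (m : ℕ) : Type := Fin m × {S : Finset (Fin 12) // K4free S}

noncomputable instance (m : ℕ) : Fintype (Blk m) := by
  classical
  exact inferInstance

/-- which blocks may be joined -/
def blkGraph (m : ℕ) : SimpleGraph (Blk m) where
  Adj b b' := b.1 ≠ b'.1 ∧ K3free (b.2.1 ∩ b'.2.1)
  symm := ⟨fun _ _ h => ⟨h.1.symm, by rw [Finset.inter_comm]; exact h.2⟩⟩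
  loopless := ⟨fun _ h => h.1 rfl⟩

variable {m : ℕ}

/-- vertices of the final graph -/
abbrev FV (Q : Sys (blkGraph m)) : Type := Fin 12 ⊕ (Q.R × Fin (m + 3))

/-- adjacency of the final graph -/
def fadj (Q : Sys (blkGraph m)) : FV Q → FV Q → Prop
  | .inl x, .inl y => W.Adj x y
  | .inl x, .inr r => x ∈ (Q.π r.1).2.1
  | .inr r, .inl x => x ∈ (Q.π r.1).2.1
  | .inr r, .inr r' => r.2 = r'.2 ∧ Q.P.Adj r.1 r'.1

/-- the final graph -/
def fgraph (Q : Sys (blkGraph m)) : SimpleGraph (FV Q) where
  Adj := fadj Q
  symm := ⟨by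
    rintro (x | r) (y | r') h
    · exact (show W.Adj x y from h).symm
    · exact h
    · exact h
    · exact ⟨h.1.symm, h.2.symm⟩⟩
  loopless := ⟨by
    rintro (x | r) h
    · exact W.loopless.irrefl _ h
    · exact Q.P.loopless.irrefl _ h.2⟩

theorem cliqueFree (Q : Sys (blkGraph m)) : (fgraph Q).CliqueFree 5 := by
  classical
  intro s hs
  have hcl := hs.isClique
  have hcard := hs.card_eq
  have hsum := Finset.card_toLeft_add_card_toRight (u := s)
  rw [hcard] at hsum
  have hL : ∀ x ∈ s.toLeft, ∀ y ∈ s.toLeft, x ≠ y → W.Adj x y := by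
    intro x hx y hy hxy
    rw [Finset.mem_toLeft] at hx hy
    exact hcl hx hy (fun h => hxy (Sum.inl.inj h))
  have hRR : ∀ x ∈ s.toRight, ∀ y ∈ s.toRight, x ≠ y → x.2 = y.2 ∧ Q.P.Adj x.1 y.1 := by
    intro x hx y hy hxy
    rw [Finset.mem_toRight] at hx hy
    exact hcl hx hy (fun h => hxy (Sum.inr.inj h))
  have hLR : ∀ r ∈ s.toRight, s.toLeft ⊆ (Q.π r.1).2.1 := by
    intro r hr x hx
    rw [Finset.mem_toRight] at hr
    rw [Finset.mem_toLeft] at hx
    exact hcl hx hr Sum.inl_ne_inr
  have hR2 : s.toRight.card ≤ 2 := by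
    by_contra h
    push Not at h
    obtain ⟨x, y, z, hx, hy, hz, hxy, hxz, hyz⟩ := Finset.two_lt_card_iff.1 h
    exact Q.tri _ _ _ (hRR x hx y hy hxy).2 (hRR y hy z hz hyz).2 (hRR x hx z hz hxz).2
  rcases Nat.lt_or_ge s.toRight.card 1 with h0 | h1
  · have : s.toLeft.card = 5 := by omega
    exact cliqueFree_five _ this hL
  · rcases Nat.lt_or_ge s.toRight.card 2 with h1' | h2
    · obtain ⟨r, hr⟩ := Finset.card_pos.1 h1
      have : s.toLeft.card = 4 := by omega
      exact (Q.π r.1).2.2 s.toLeft (hLR r hr) this hL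
    · obtain ⟨r, hr, r', hr', hne⟩ := Finset.one_lt_card.1 h2
      have h3 : s.toLeft.card = 3 := by omega
      have hadj := Q.hom _ _ (hRR r hr r' hr' hne).2
      exact hadj.2 s.toLeft (Finset.subset_inter (hLR r hr) (hLR r' hr')) h3 hL

theorem cochrom_le (Q : Sys (blkGraph m)) : CochromaticColorable (fgraph Q) (m + 3) := by
  refine ⟨fun v => match v with
    | .inl x => Fin.natAdd m (part3 x)
    | .inr r => Fin.castAdd 3 (Q.π r.1).1, ?_⟩
  intro i
  refine Fin.addCases (fun j => ?_) (fun j => ?_) i
  · left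
    rintro (x | r) hx (y | r') hy _ hadj
    · exact absurd hx (by
        intro h
        have := congrArg Fin.val h
        simp only [Fin.val_natAdd, Fin.val_castAdd] at this
        have := j.2
        omega)
    · exact absurd hx (by
        intro h
        have := congrArg Fin.val h
        simp only [Fin.val_natAdd, Fin.val_castAdd] at this
        have := j.2
        omega)
    · exact absurd hy (by
        intro h
        have := congrArg Fin.val h
        simp only [Fin.val_natAdd, Fin.val_castAdd] at this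
        have := j.2
        omega)
    · have h1 : (Q.π r.1).1 = j := Fin.castAdd_injective _ _ hx
      have h2 : (Q.π r'.1).1 = j := Fin.castAdd_injective _ _ hy
      exact (Q.hom _ _ hadj.2).1 (h1.trans h2.symm)
  · right
    rintro (x | r) hx (y | r') hy hne
    · have h1 : part3 x = j := Fin.natAdd_injective _ _ hx
      have h2 : part3 y = j := Fin.natAdd_injective _ _ hy
      exact part3_clique x y (h1.trans h2.symm) (fun h => hne (congrArg Sum.inl h))
    · exact absurd hy (by
        intro h
        have := congrArg Fin.val h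
        simp only [Fin.val_natAdd, Fin.val_castAdd] at this
        have := (Q.π r'.1).1.2
        omega)
    · exact absurd hx (by
        intro h
        have := congrArg Fin.val h
        simp only [Fin.val_natAdd, Fin.val_castAdd] at this
        have := (Q.π r.1).1.2
        omega)
    · exact absurd hx (by
        intro h
        have := congrArg Fin.val h
        simp only [Fin.val_natAdd, Fin.val_castAdd] at this
        have := (Q.π r.1).1.2
        omega)

theorem colorable (Q : Sys (blkGraph m)) : (fgraph Q).Colorable (m + 6) := by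
  refine ⟨SimpleGraph.Coloring.mk (fun v => match v with
    | .inl x => Fin.natAdd m (col6 x)
    | .inr r => Fin.castAdd 6 (Q.π r.1).1) ?_⟩
  rintro (x | r) (y | r') h
  · intro he
    exact col6_proper x y h (Fin.natAdd_injective _ _ he)
  · intro he
    have := congrArg Fin.val he
    simp only [Fin.val_natAdd, Fin.val_castAdd] at this
    have := (Q.π r'.1).1.2
    omega
  · intro he
    have := congrArg Fin.val he
    simp only [Fin.val_natAdd, Fin.val_castAdd] at this
    have := (Q.π r.1).1.2
    omega
  · intro he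
    exact (Q.hom _ _ h.2).1 (Fin.castAdd_injective _ _ he)

/-- selection property of `Q` for `t` colours -/
def Selects (t : ℕ) (Q : Sys (blkGraph m)) : Prop :=
  ∀ φ : Q.R → Fin t, (∀ x y, Q.P.Adj x y → φ x ≠ φ y) →
      ∃ f : Blk m → Fin t, (∀ b, ∃ x, Q.π x = b ∧ φ x = f b) ∧
        ∀ b b', (blkGraph m).Adj b b' → f b ≠ f b'

theorem not_colorable (Q : Sys (blkGraph m)) (hQ : Selects (m + 5) Q) :
    ¬ (fgraph Q).Colorable (m + 5) := by
  classical
  rintro ⟨C⟩
  obtain ⟨f, hf1, hf2⟩ := hQ (fun x => C (Sum.inr (x, 0))) (fun x y h =>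
    C.valid (show (fgraph Q).Adj (Sum.inr (x, 0)) (Sum.inr (y, 0)) from ⟨rfl, h⟩))
  refine no_sel (m := m) (c := fun w => C (Sum.inl w))
    (f := fun i S => if h : K4free S then f (i, ⟨S, h⟩) else C (Sum.inl 0)) ?_ ⟨?_, ?_⟩
  · intro x y h
    exact C.valid (show (fgraph Q).Adj (Sum.inl x) (Sum.inl y) from h)
  · intro i S hS w hw
    rw [dif_pos hS]
    obtain ⟨x, hx, hx2⟩ := hf1 (i, ⟨S, hS⟩)
    rw [← hx2]
    refine C.valid (show (fgraph Q).Adj (Sum.inr (x, 0)) (Sum.inl w) from ?_)
    change w ∈ (Q.π x).2.1
    rw [hx]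
    exact hw
  · intro i j S S' hij hS hS' h3
    rw [dif_pos hS, dif_pos hS']
    exact hf2 _ _ ⟨hij, h3⟩

/-- Lower bound for the number of homogeneous classes. -/
theorem cochrom_ge (Q : Sys (blkGraph m)) (hQ : Selects (m + 5) Q) {k : ℕ}
    (hk : CochromaticColorable (fgraph Q) k) : m + 3 ≤ k := by
  classical
  by_contra hlt
  push Not at hlt
  obtain ⟨c, hc⟩ := hk
  -- good colours: independent classes
  let good : Fin k → Prop := fun i => (fgraph Q).IsIndepSet {v | c v = i}
  -- a copy with good colours only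
  obtain ⟨n, hn⟩ : ∃ n : Fin (m + 3), ∀ r : Q.R, good (c (Sum.inr (r, n))) := by
    by_contra hcon
    push Not at hcon
    choose r hr using hcon
    obtain ⟨n, n', hne, heq⟩ := Fintype.exists_ne_map_eq_of_card_lt
      (fun n : Fin (m + 3) => c (Sum.inr (r n, n))) (by
        rw [Fintype.card_fin, Fintype.card_fin]
        exact hlt)
    have hcl := (hc (c (Sum.inr (r n, n)))).resolve_left (hr n)
    have hadj := hcl (show c (Sum.inr (r n, n)) = c (Sum.inr (r n, n)) from rfl)
      (show c (Sum.inr (r n', n')) = c (Sum.inr (r n, n)) from heq.symm)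
      (fun h => hne (Prod.mk.inj (Sum.inr.inj h)).2)
    exact hne hadj.1
  have hkt : k ≤ m + 5 := by omega
  obtain ⟨f', hf1', hf2'⟩ := hQ (fun x => Fin.castLE hkt (c (Sum.inr (x, n)))) (fun x y h he => by
    have he' := Fin.castLE_injective hkt he
    exact hn x rfl he'.symm (fun h' => h.ne (Prod.mk.inj (Sum.inr.inj h')).1)
      (show (fgraph Q).Adj (Sum.inr (x, n)) (Sum.inr (y, n)) from ⟨rfl, h⟩))
  -- selection with values in `Fin k`
  have hf : ∀ b : Blk m, ∃ x, Q.π x = b ∧ Fin.castLE hkt (c (Sum.inr (x, n))) = f' b := hf1'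
  choose X hX1 hX2 using hf
  let f : Blk m → Fin k := fun b => c (Sum.inr (X b, n))
  have hfgood : ∀ b, good (f b) := fun b => hn (X b)
  have hfne : ∀ b b', (blkGraph m).Adj b b' → f b ≠ f b' := by
    intro b b' hb he
    apply hf2' b b' hb
    rw [← hX2 b, ← hX2 b']
    exact congrArg (Fin.castLE hkt) he
  have hfW : ∀ b : Blk m, ∀ w ∈ b.2.1, f b ≠ c (Sum.inl w) := by
    intro b w hw he
    have hadj : (fgraph Q).Adj (Sum.inr (X b, n)) (Sum.inl w) := by
      change w ∈ (Q.π (X b)).2.1
      rw [hX1]
      exact hw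
    exact hfgood b rfl he.symm hadj.ne hadj
  let Good : Finset (Fin k) := univ.filter good
  let Bad : Finset (Fin k) := univ.filter fun i => ¬ good i
  have hGB : Good.card + Bad.card = k := by
    have := Finset.card_filter_add_card_filter_not (s := (univ : Finset (Fin k))) good
    rw [Finset.card_univ, Fintype.card_fin] at this
    exact this
  -- general bound
  have bound : ∀ S : Finset (Fin 12), K3free S →
      m + ((S.image fun w => c (Sum.inl w)).filter good).card ≤ Good.card := by
    intro S hS
    let e : Fin m → Fin k := fun i => f (i, ⟨S, hS.k4⟩)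
    have he : Function.Injective e := by
      intro i j hij
      by_contra hne
      exact hfne _ _ (show (blkGraph m).Adj (i, ⟨S, hS.k4⟩) (j, ⟨S, hS.k4⟩) from
        ⟨hne, hS.mono Finset.inter_subset_left⟩) hij
    have hd : Disjoint (univ.image e) ((S.image fun w => c (Sum.inl w)).filter good) := by
      rw [Finset.disjoint_left]
      intro y hy hy'
      obtain ⟨i, -, rfl⟩ := Finset.mem_image.1 hy
      obtain ⟨w, hw, hwe⟩ := Finset.mem_image.1 (mem_filter.1 hy').1
      exact hfW (i, ⟨S, hS.k4⟩) w hw hwe.symm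
    have hsub : univ.image e ∪ (S.image fun w => c (Sum.inl w)).filter good ⊆ Good := by
      intro y hy
      rcases Finset.mem_union.1 hy with hy | hy
      · obtain ⟨i, -, rfl⟩ := Finset.mem_image.1 hy
        exact mem_filter.2 ⟨mem_univ _, hfgood _⟩
      · exact mem_filter.2 ⟨mem_univ _, (mem_filter.1 hy).2⟩
    have := Finset.card_le_card hsub
    rw [Finset.card_union_of_disjoint hd, Finset.card_image_of_injective _ he, Finset.card_univ,
      Fintype.card_fin] at this
    exact this
  have hb0 := bound ∅ empty_k3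
  -- vertices of `W` in bad classes
  have hbadcls : ∀ i ∈ Bad, (univ.filter fun w : Fin 12 => c (Sum.inl w) = i).card ≤ 4 := by
    intro i hi
    by_contra h5
    push Not at h5
    obtain ⟨K, hK, hK5⟩ := Finset.exists_subset_card_eq (Nat.succ_le_of_lt h5)
    refine cliqueFree_five K hK5 fun x hx y hy hxy => ?_
    have hcl := (hc i).resolve_left (mem_filter.1 hi).2
    exact hcl (mem_filter.1 (hK hx)).2 (mem_filter.1 (hK hy)).2 (fun h => hxy (Sum.inl.inj h))
  let WB : Finset (Fin 12) := univ.filter fun w => ¬ good (c (Sum.inl w))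
  let WG : Finset (Fin 12) := univ.filter fun w => good (c (Sum.inl w))
  have hWBcard : WB.card ≤ 4 * Bad.card := by
    apply Finset.card_le_mul_card_image_of_maps_to (f := fun w => c (Sum.inl w))
    · intro w hw
      exact mem_filter.2 ⟨mem_univ _, (mem_filter.1 hw).2⟩
    · intro i hi
      refine (Finset.card_le_card ?_).trans (hbadcls i hi)
      intro w hw
      rw [mem_filter] at hw ⊢
      exact ⟨mem_univ _, hw.2⟩
  have hW12 : WG.card + WB.card = 12 := by
    have := Finset.card_filter_add_card_filter_not (s := (univ : Finset (Fin 12)))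
      (fun w => good (c (Sum.inl w)))
    rw [Finset.card_univ, Fintype.card_fin] at this
    exact this
  simp only [Finset.image_empty, Finset.filter_empty, Finset.card_empty, add_zero] at hb0
  -- at least one good vertex in `W`
  obtain ⟨w, hw⟩ : WG.Nonempty := by
    rw [← Finset.card_pos]
    omega
  have hb1 := bound {w} (k3free_of_card (by simp))
  have hw' : good (c (Sum.inl w)) := (mem_filter.1 hw).2
  rw [Finset.image_singleton, Finset.filter_singleton, if_pos hw', Finset.card_singleton] at hb1
  have hBad1 : Bad.card ≤ 1 := by omega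
  -- two adjacent good vertices in `W`
  have hWG3 : 2 < WG.card := by omega
  obtain ⟨x, y, z, hx, hy, hz, hxy, hxz, hyz⟩ := Finset.two_lt_card_iff.1 hWG3
  obtain ⟨u, v, hu, hv, huv⟩ : ∃ u v, u ∈ WG ∧ v ∈ WG ∧ W.Adj u v := by
    by_contra hcon
    push Not at hcon
    have key : ∀ u v, u ∈ WG → v ∈ WG → u ≠ v → hadj u v = true := by
      intro u v hu hv huv
      by_contra hT
      rw [Bool.not_eq_true] at hT
      exact hcon u v hu hv ⟨huv, hT⟩
    exact tri x y z (key x y hx hy hxy) (key y z hy hz hyz) (key x z hx hz hxz)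
  have hb2 := bound {u, v} (k3free_of_card Finset.card_le_two)
  have hu' : good (c (Sum.inl u)) := (mem_filter.1 hu).2
  have hv' : good (c (Sum.inl v)) := (mem_filter.1 hv).2
  have hcuv : c (Sum.inl u) ≠ c (Sum.inl v) := by
    intro he
    exact hu' rfl he.symm (fun h => huv.ne (Sum.inl.inj h))
      (show (fgraph Q).Adj (Sum.inl u) (Sum.inl v) from huv)
  have h2 : ((({u, v} : Finset (Fin 12)).image fun w => c (Sum.inl w)).filter good).card = 2 := by
    rw [Finset.image_insert, Finset.image_singleton, Finset.filter_true_of_mem,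
      Finset.card_pair hcuv]
    intro i hi
    rcases Finset.mem_insert.1 hi with rfl | hi
    · exact hu'
    · rw [Finset.mem_singleton.1 hi]
      exact hv'
  rw [h2] at hb2
  have hBad0 : Bad.card = 0 := by omega
  -- now `c` is a proper colouring
  have hall : ∀ i, good i := by
    intro i
    by_contra hi
    have : i ∈ Bad := mem_filter.2 ⟨mem_univ _, hi⟩
    rw [Finset.card_eq_zero] at hBad0
    rw [hBad0] at this
    exact absurd this (Finset.notMem_empty _)
  apply not_colorable Q hQ
  refine SimpleGraph.Colorable.mono hkt ⟨SimpleGraph.Coloring.mk c ?_⟩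
  intro a b hab he
  exact hall (c a) rfl he.symm hab.ne hab

/-- **Main theorem.** For every integer `k ≥ 3` (in particular for every `k ≥ 5`) there is a
finite graph `G` without `K_5` with cochromatic number `k` and chromatic number `k + 3`. -/
theorem result (k : ℕ) (hk : 3 ≤ k) :
    ∃ (V : Type) (_ : Fintype V) (G : SimpleGraph V),
      G.CliqueFree 5 ∧ cochromaticNumber G = k ∧ G.chromaticNumber = ((k + 3 : ℕ) : ℕ∞) := by
  obtain ⟨m, rfl⟩ : ∃ m, k = m + 3 := ⟨k - 3, by omega⟩
  obtain ⟨Q, hQ⟩ := selection (blkGraph m) (m + 5)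
  refine ⟨FV Q, inferInstance, fgraph Q, cliqueFree Q, ?_, ?_⟩
  · apply le_antisymm
    · exact Nat.sInf_le (cochrom_le Q)
    · exact le_csInf ⟨_, cochrom_le Q⟩ fun k hk => cochrom_ge Q hQ hk
  · apply le_antisymm
    · exact SimpleGraph.chromaticNumber_le_iff_colorable.2 (colorable Q)
    · by_contra hcon
      rw [not_le] at hcon
      have h1 : (fgraph Q).chromaticNumber ≤ ((m + 5 : ℕ) : ℕ∞) := by
        apply ENat.lt_natCast_add_one_iff.1
        exact_mod_cast hcon
      exact not_colorable Q hQ (SimpleGraph.chromaticNumber_le_iff_colorable.1 h1)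

end Pool.Agent.Results.MP_a38e10_co.GapThree
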